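import Pool.Agent.helper64.OT.SpecG

/-!
# Row DYH: dyadic classes
-/

set_option autoImplicit false

namespace Pool.Agent.OG

open Finset Pool.Agent.OT Pool.Agent.SPI Pool.Agent.helper85.PG
open scoped Pointwise

theorem DYH : DYH_stmt := by
  intro p _ J B cl hcl
  classical
  have hBY : ∀ b ∈ B, b ∈ BY B cl (cl b) := by
    intro b hb
    simp [BY, hb]
  have hpos : ∀ b ∈ B, 0 < (BY B cl (cl b)).card := fun b hb => Finset.card_pos.2 ⟨b, hBY b hb⟩
  have hle : ∀ y, (BY B cl y).card ≤ p := by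
    intro y
    calc (BY B cl y).card ≤ (Finset.univ : Finset (ZMod p)).card := Finset.card_le_card (Finset.subset_univ _)
      _ = p := by rw [Finset.card_univ, ZMod.card]
  refine ⟨fun i => J.filter fun y => 2 ^ i ≤ (BY B cl y).card ∧ (BY B cl y).card < 2 ^ (i + 1),
    fun i => B.filter fun b => 2 ^ i ≤ (BY B cl (cl b)).card ∧ (BY B cl (cl b)).card < 2 ^ (i + 1), ?_, ?_, ?_⟩
  · intro i
    exact ⟨Finset.filter_subset _ _, Finset.filter_subset _ _⟩
  · intro f
    have h1 : ∀ i ∈ range (Nat.log 2 p + 1),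
        ∑ b ∈ B.filter (fun b => 2 ^ i ≤ (BY B cl (cl b)).card ∧ (BY B cl (cl b)).card < 2 ^ (i + 1)), f b =
        ∑ b ∈ B, if 2 ^ i ≤ (BY B cl (cl b)).card ∧ (BY B cl (cl b)).card < 2 ^ (i + 1) then f b else 0 := by
      intro i _
      rw [Finset.sum_filter]
    rw [Finset.sum_congr rfl h1, Finset.sum_comm]
    refine Finset.sum_congr rfl fun b hb => ?_
    rw [Finset.sum_eq_single (Nat.log 2 (BY B cl (cl b)).card)]
    · rw [if_pos]
      exact ⟨Nat.pow_log_le_self 2 (hpos b hb).ne', Nat.lt_pow_succ_log_self (by norm_num) _⟩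
    · intro i _ hi
      rw [if_neg]
      rintro ⟨a1, a2⟩
      apply hi
      symm
      exact (Nat.log_eq_iff (Or.inr ⟨by norm_num, (hpos b hb).ne'⟩)).2 ⟨a1, a2⟩
    · intro h
      exfalso
      apply h
      rw [Finset.mem_range, Nat.lt_succ_iff]
      exact Nat.log_mono_right (hle _)
  · intro i
    constructor
    · intro b hb
      rw [Finset.mem_filter] at hb ⊢
      exact ⟨hcl b hb.1, hb.2⟩
    · intro y hy
      rw [Finset.mem_filter] at hy
      have e : BY (B.filter fun b => 2 ^ i ≤ (BY B cl (cl b)).card ∧ (BY B cl (cl b)).card < 2 ^ (i + 1)) cl y =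
          BY B cl y := by
        have hm : ∀ (A : Finset (ZMod p)) (b : ZMod p), b ∈ BY A cl y ↔ b ∈ A ∧ cl b = y := by
          intro A b
          simp only [BY, Finset.mem_filter]
        ext b
        rw [hm, hm, Finset.mem_filter]
        constructor
        · rintro ⟨⟨h1, -⟩, h2⟩
          exact ⟨h1, h2⟩
        · rintro ⟨h1, h2⟩
          refine ⟨⟨h1, ?_⟩, h2⟩
          rw [h2]
          exact hy.2
      rw [e]
      refine ⟨hy.2.1, ?_⟩
      have h3 := hy.2.2
      rw [pow_succ] at h3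
      omega

end Pool.Agent.OG
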