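import Pool.Agent.helper35.OT.Spec

set_option autoImplicit false

namespace Pool.Agent.helper35.OT

open Finset

/-- the set of convergence is closed downwards -/
lemma D3_down (r : ℕ → ℕ) (x y : ℝ) (hx : 0 ≤ x) (hxy : x ≤ y) (hy : SM r y) : SM r x := by
  unfold SM at *
  refine Summable.of_nonneg_of_le (fun n => by positivity) (fun n => ?_) hy
  exact mul_le_mul_of_nonneg_left (pow_le_pow_left₀ hx hxy n) (Nat.cast_nonneg _)

theorem D3 (hMS : MS_stmt) (hD1 : D1_stmt) (hD2 : D2_stmt) : D3_stmt := by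
  intro c0 c1 c2 r hR h0 h2
  obtain ⟨x0, hx0, hx01, hs0⟩ := hMS c0 c1 c2 r hR
  have hn1 : ¬ SM r 1 := hD2 c0 c1 c2 r hR h0 h2
  set D : Set ℝ := {x : ℝ | 0 ≤ x ∧ SM r x} with hD
  have hb : ∀ x ∈ D, x ≤ 1 := by
    intro x hx
    by_contra hlt
    exact hn1 (D3_down r 1 x zero_le_one (le_of_lt (not_le.mp hlt)) hx.2)
  have hbdd : BddAbove D := ⟨1, fun x hx => hb x hx⟩
  have hmem0 : x0 ∈ D := ⟨le_of_lt hx0, hs0⟩
  have hρ0 : 0 < sSup D := lt_of_lt_of_le hx0 (le_csSup hbdd hmem0)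
  have hρ1 : sSup D ≤ 1 := csSup_le ⟨x0, hmem0⟩ hb
  have hin : ∀ x : ℝ, 0 ≤ x → x < sSup D → SM r x := by
    intro x hx hlt
    obtain ⟨y, hyD, hxy⟩ := exists_lt_of_lt_csSup ⟨x0, hmem0⟩ hlt
    exact D3_down r x y hx (le_of_lt hxy) hyD.2
  have hpt : ∀ N : ℕ, ∀ x : ℝ, 0 < x → x < sSup D → x * ∑ n ∈ range N, (r n : ℝ) * x ^ n ≤ 1 := by
    intro N x hx hlt
    have hs := hin x (le_of_lt hx) hlt
    have h1 := hD1 c0 c1 c2 r x hR h0 h2 hx (le_trans (le_of_lt hlt) hρ1) hs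
    have hle : ∑ n ∈ range N, (r n : ℝ) * x ^ n ≤ SS r x := by
      unfold SS
      exact Summable.sum_le_tsum (range N) (fun n _ => by positivity) hs
    have hS0 : 0 ≤ SS r x := tsum_nonneg (fun n => by positivity)
    have hc2 : (1 : ℝ) ≤ (c2 : ℝ) := by exact_mod_cast h2
    have hc1 : (0 : ℝ) ≤ (c1 : ℝ) * x := by positivity
    have h3 : x * SS r x ≤ (c2 : ℝ) * x * SS r x := by
      have hxs : 0 ≤ x * SS r x := mul_nonneg (le_of_lt hx) hS0
      nlinarith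
    have h4 : x * ∑ n ∈ range N, (r n : ℝ) * x ^ n ≤ x * SS r x := mul_le_mul_of_nonneg_left hle (le_of_lt hx)
    linarith
  have hlim : ∀ N : ℕ, sSup D * ∑ n ∈ range N, (r n : ℝ) * (sSup D) ^ n ≤ 1 := by
    intro N
    have hc : Continuous fun x : ℝ => x * ∑ n ∈ range N, (r n : ℝ) * x ^ n := by
      refine continuous_id.mul (continuous_finsetSum _ fun n _ => ?_)
      exact continuous_const.mul (continuous_pow n)
    have ht : Filter.Tendsto (fun x : ℝ => x * ∑ n ∈ range N, (r n : ℝ) * x ^ n) (nhdsWithin (sSup D) (Set.Iio (sSup D)))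
        (nhds (sSup D * ∑ n ∈ range N, (r n : ℝ) * (sSup D) ^ n)) :=
      (hc.tendsto (sSup D)).mono_left nhdsWithin_le_nhds
    refine le_of_tendsto ht ?_
    filter_upwards [Ioo_mem_nhdsLT hρ0] with x hx
    exact hpt N x hx.1 hx.2
  have hsρ : SM r (sSup D) := by
    unfold SM
    refine summable_of_sum_range_le (c := 1 / sSup D) (fun n => by positivity) (fun N => ?_)
    rw [le_div_iff₀ hρ0, mul_comm]
    exact hlim N
  refine ⟨sSup D, hρ0, lt_of_le_of_ne hρ1 (fun h => hn1 (h ▸ hsρ)), fun x hx => ⟨fun hs => le_csSup hbdd ⟨hx, hs⟩, fun hle => ?_⟩⟩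
  exact D3_down r x (sSup D) hx hle hsρ

end Pool.Agent.helper35.OT
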