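import Pool.Agent.helper64.OT.SpecM

set_option autoImplicit false

namespace Pool.Agent.OT

open Finset

theorem INN (hW2 : W2_stmt) : INN_stmt := by
  intro p hp hp2 a b c a' b' c' h1 h2
  haveI := hp
  have h16 : (16 : ZMod p) ≠ 0 := by
    intro h
    have h16' : ((16 : ℕ) : ZMod p) = 0 := by exact_mod_cast h
    rw [ZMod.natCast_eq_zero_iff] at h16'
    have : p ∣ 2 ^ 4 := by norm_num; exact h16'
    have := hp.out.dvd_of_dvd_pow this
    exact hp2 ((Nat.prime_dvd_prime_iff_eq hp.out Nat.prime_two).mp this)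
  have key := hW2 p hp2 ((b + c) ^ 2) (4 * (a * b) - 2 * ((a + c) * (b + c))) ((a + c) ^ 2)
    ((b' + c') ^ 2) (4 * (a' * b') - 2 * ((a' + c') * (b' + c'))) ((a' + c') ^ 2)
    (by
      rintro ⟨e1, e2⟩
      apply h1
      constructor
      · have : (16 : ZMod p) * (a * b * c * (a + b + c)) = 0 := by linear_combination -e1
        exact (mul_eq_zero.mp this).resolve_left h16
      · have : (16 : ZMod p) * (a' * b' * c' * (a' + b' + c')) = 0 := by linear_combination -e2
        exact (mul_eq_zero.mp this).resolve_left h16)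
    h2
  refine le_of_eq_of_le ?_ key
  congr 1
  refine Finset.sum_congr rfl ?_
  intro x _
  have e : ∀ u v w : ZMod p, PX u v w x = (v + w) ^ 2 * x ^ 2 + (4 * (u * v) - 2 * ((u + w) * (v + w))) * x + (u + w) ^ 2 := by
    intro u v w
    unfold PX
    ring
  rw [e a b c, e a' b' c', map_mul]
  push_cast
  ring

end Pool.Agent.OT
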