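import Pool.Agent.helper64.OT.SpecF

/-!
# Row KAR: Karatsuba's bound for large sets
-/

set_option autoImplicit false

namespace Pool.Agent.OT

open Finset

theorem KAR_large (C δ : ℝ) (hδ : 0 < δ) : ∃ N : ℕ, ∀ n : ℕ, N ≤ n → C ≤ (n : ℝ) ^ δ := by
  have h := ((tendsto_rpow_atTop hδ).comp tendsto_natCast_atTop_atTop).eventually_ge_atTop C
  exact Filter.eventually_atTop.1 h

theorem KAR_first (hWMO : WMO_stmt) (ε : ℝ) (k p : ℕ) [Fact p.Prime] (hε : 0 < ε) (hk : 1 ≤ k)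
    (hkε : 1 ≤ ε * k) (hp : (k : ℝ) ^ (2 * k) + 2 * k ≤ (p : ℝ) ^ (ε / 2))
    (χ : MulChar (ZMod p) ℂ) (X B : Finset (ZMod p)) (β : ZMod p → ℂ) (hχ : χ ≠ 1) (hβ : ∀ b, ‖β b‖ ≤ 1)
    (hXe : (p : ℝ) ^ ε ≤ X.card) (hBe : (p : ℝ) ^ ε ≤ B.card) (hX : (p : ℝ) ^ (1 / 2 + ε) ≤ X.card) :
    ∑ x ∈ X, ‖FB χ B β x‖ ≤ (p : ℝ) ^ (-(ε / (4 * k))) * (X.card * B.card) := by
  have hp0 : (0 : ℝ) < p := by exact_mod_cast (Fact.out : p.Prime).pos
  have hp1 : (1 : ℝ) ≤ p := by exact_mod_cast (Fact.out : p.Prime).one_lt.le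
  have hkR : (0 : ℝ) < k := by exact_mod_cast hk
  have hx0 : (0 : ℝ) < X.card := lt_of_lt_of_le (Real.rpow_pos_of_pos hp0 _) hXe
  have hb0 : (0 : ℝ) < B.card := lt_of_lt_of_le (Real.rpow_pos_of_pos hp0 _) hBe
  have hSn : (0 : ℝ) ≤ ∑ x ∈ X, ‖FB χ B β x‖ := Finset.sum_nonneg (fun _ _ => norm_nonneg _)
  have h1 : (∑ x ∈ X, ‖FB χ B β x‖) ^ (2 * k) ≤
      (X.card : ℝ) ^ (2 * k - 1) * ∑ x ∈ X, ‖FB χ B β x‖ ^ (2 * k) := by
    have h := pow_sum_div_card_le_sum_pow (s := X) (f := fun x => ‖FB χ B β x‖)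
      (fun _ _ => norm_nonneg _) (2 * k - 1)
    have e : 2 * k - 1 + 1 = 2 * k := by omega
    rw [e, div_le_iff₀ (by positivity)] at h
    exact h.trans_eq (mul_comm _ _)
  have h2 : ∑ x ∈ X, ‖FB χ B β x‖ ^ (2 * k) ≤
      (k : ℝ) ^ (2 * k) * (B.card : ℝ) ^ k * p + (B.card : ℝ) ^ (2 * k) * (2 * k * Real.sqrt p) := by
    refine le_trans ?_ (hWMO p χ k B β hχ hβ)
    exact Finset.sum_le_sum_of_subset_of_nonneg (Finset.subset_univ _) (fun _ _ _ => by positivity)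
  -- the two terms
  have hBk : (p : ℝ) ≤ (B.card : ℝ) ^ k := by
    calc (p : ℝ) = (p : ℝ) ^ (1 : ℝ) := (Real.rpow_one _).symm
      _ ≤ (p : ℝ) ^ (ε * k) := Real.rpow_le_rpow_of_exponent_le hp1 hkε
      _ = ((p : ℝ) ^ ε) ^ k := by rw [Real.rpow_mul hp0.le, Real.rpow_natCast]
      _ ≤ (B.card : ℝ) ^ k := pow_le_pow_left₀ (by positivity) hBe k
  set P : ℝ := (p : ℝ) ^ (-ε) with hP
  have hP0 : 0 < P := Real.rpow_pos_of_pos hp0 _
  have hPX : 1 ≤ P * X.card := by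
    have : P * (p : ℝ) ^ ε = 1 := by
      rw [hP, ← Real.rpow_add hp0, neg_add_cancel, Real.rpow_zero]
    rw [← this]
    exact mul_le_mul_of_nonneg_left hXe hP0.le
  have hPX2 : Real.sqrt p ≤ P * X.card := by
    have : P * (p : ℝ) ^ (1 / 2 + ε) = Real.sqrt p := by
      rw [hP, ← Real.rpow_add hp0, Real.sqrt_eq_rpow]
      congr 1
      ring
    rw [← this]
    exact mul_le_mul_of_nonneg_left hX hP0.le
  have e2 : (B.card : ℝ) ^ (2 * k) = (B.card : ℝ) ^ k * (B.card : ℝ) ^ k := by rw [← pow_add]; congr 1; ring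
  have t1 : (k : ℝ) ^ (2 * k) * (B.card : ℝ) ^ k * p ≤
      (k : ℝ) ^ (2 * k) * ((B.card : ℝ) ^ (2 * k) * (P * X.card)) := by
    rw [mul_assoc]
    refine mul_le_mul_of_nonneg_left ?_ (by positivity)
    rw [e2, mul_assoc]
    refine mul_le_mul_of_nonneg_left ?_ (by positivity)
    calc (p : ℝ) ≤ (B.card : ℝ) ^ k := hBk
      _ = (B.card : ℝ) ^ k * 1 := (mul_one _).symm
      _ ≤ (B.card : ℝ) ^ k * (P * X.card) := mul_le_mul_of_nonneg_left hPX (by positivity)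
  have t2 : (B.card : ℝ) ^ (2 * k) * (2 * k * Real.sqrt p) ≤
      2 * k * ((B.card : ℝ) ^ (2 * k) * (P * X.card)) := by
    calc (B.card : ℝ) ^ (2 * k) * (2 * k * Real.sqrt p) = 2 * k * ((B.card : ℝ) ^ (2 * k) * Real.sqrt p) := by ring
      _ ≤ 2 * k * ((B.card : ℝ) ^ (2 * k) * (P * X.card)) := by
        refine mul_le_mul_of_nonneg_left ?_ (by positivity)
        exact mul_le_mul_of_nonneg_left hPX2 (by positivity)
  have h3 : (∑ x ∈ X, ‖FB χ B β x‖) ^ (2 * k) ≤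
      ((k : ℝ) ^ (2 * k) + 2 * k) * P * ((X.card : ℝ) * B.card) ^ (2 * k) := by
    have eX : (X.card : ℝ) ^ (2 * k) = (X.card : ℝ) ^ (2 * k - 1) * X.card := by
      rw [← pow_succ]
      congr 1
      omega
    calc (∑ x ∈ X, ‖FB χ B β x‖) ^ (2 * k)
        ≤ (X.card : ℝ) ^ (2 * k - 1) * ∑ x ∈ X, ‖FB χ B β x‖ ^ (2 * k) := h1
      _ ≤ (X.card : ℝ) ^ (2 * k - 1) * ((k : ℝ) ^ (2 * k) * ((B.card : ℝ) ^ (2 * k) * (P * X.card)) +
          2 * k * ((B.card : ℝ) ^ (2 * k) * (P * X.card))) :=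
        mul_le_mul_of_nonneg_left (h2.trans (add_le_add t1 t2)) (by positivity)
      _ = ((k : ℝ) ^ (2 * k) + 2 * k) * P * ((X.card : ℝ) * B.card) ^ (2 * k) := by
        rw [mul_pow, eX]
        ring
  have h4 : ((k : ℝ) ^ (2 * k) + 2 * k) * P ≤ ((p : ℝ) ^ (-(ε / (4 * k)))) ^ (2 * k) := by
    have e : ((p : ℝ) ^ (-(ε / (4 * k)))) ^ (2 * k) = (p : ℝ) ^ (ε / 2) * P := by
      rw [← Real.rpow_natCast, ← Real.rpow_mul hp0.le, hP, ← Real.rpow_add hp0]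
      congr 1
      push_cast
      field_simp
      ring
    rw [e]
    exact mul_le_mul_of_nonneg_right hp hP0.le
  refine le_of_pow_le_pow_left₀ (n := 2 * k) (by omega) (by positivity) ?_
  rw [mul_pow]
  exact h3.trans (mul_le_mul_of_nonneg_right h4 (by positivity))

/-- exchange of the two sets -/
theorem KAR_swap (p : ℕ) [Fact p.Prime] (χ : MulChar (ZMod p) ℂ) (X B : Finset (ZMod p)) (β : ZMod p → ℂ)
    (hβ : ∀ b, ‖β b‖ ≤ 1) : ∃ α : ZMod p → ℂ, (∀ x, ‖α x‖ ≤ 1) ∧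
      ∑ x ∈ X, ‖FB χ B β x‖ ≤ ∑ b ∈ B, ‖FB χ X α b‖ := by
  have hph : ∀ z : ℂ, ∃ a : ℂ, ‖a‖ ≤ 1 ∧ a * z = (‖z‖ : ℂ) := by
    intro z
    by_cases hz : z = 0
    · exact ⟨0, by simp, by simp [hz]⟩
    · have hn : (‖z‖ : ℂ) ≠ 0 := by
        exact_mod_cast norm_ne_zero_iff.2 hz
      refine ⟨(‖z‖ : ℂ) / z, ?_, div_mul_cancel₀ _ hz⟩
      rw [norm_div, Complex.norm_real, norm_norm, div_self (norm_ne_zero_iff.2 hz)]
  choose a ha1 ha2 using hph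
  refine ⟨fun x => a (FB χ B β x), fun x => ha1 _, ?_⟩
  have e : ((∑ x ∈ X, ‖FB χ B β x‖ : ℝ) : ℂ) = ∑ b ∈ B, β b * FB χ X (fun x => a (FB χ B β x)) b := by
    rw [Complex.ofReal_sum]
    calc ∑ x ∈ X, (‖FB χ B β x‖ : ℂ) = ∑ x ∈ X, a (FB χ B β x) * FB χ B β x :=
          Finset.sum_congr rfl (fun x _ => (ha2 _).symm)
      _ = ∑ x ∈ X, ∑ b ∈ B, a (FB χ B β x) * (β b * χ (x + b)) := by
          refine Finset.sum_congr rfl (fun x _ => ?_)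
          rw [← Finset.mul_sum]
          rfl
      _ = ∑ b ∈ B, ∑ x ∈ X, a (FB χ B β x) * (β b * χ (x + b)) := Finset.sum_comm
      _ = ∑ b ∈ B, β b * FB χ X (fun x => a (FB χ B β x)) b := by
          refine Finset.sum_congr rfl (fun b _ => ?_)
          unfold FB
          rw [Finset.mul_sum]
          refine Finset.sum_congr rfl (fun x _ => ?_)
          rw [add_comm b x]
          ring
  have hSn : (0 : ℝ) ≤ ∑ x ∈ X, ‖FB χ B β x‖ := Finset.sum_nonneg (fun _ _ => norm_nonneg _)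
  calc ∑ x ∈ X, ‖FB χ B β x‖ = ‖((∑ x ∈ X, ‖FB χ B β x‖ : ℝ) : ℂ)‖ := by
        rw [Complex.norm_real, Real.norm_of_nonneg hSn]
    _ = ‖∑ b ∈ B, β b * FB χ X (fun x => a (FB χ B β x)) b‖ := by rw [e]
    _ ≤ ∑ b ∈ B, ‖β b * FB χ X (fun x => a (FB χ B β x)) b‖ := norm_sum_le _ _
    _ ≤ ∑ b ∈ B, ‖FB χ X (fun x => a (FB χ B β x)) b‖ := by
        refine Finset.sum_le_sum (fun b _ => ?_)
        rw [norm_mul]
        exact mul_le_of_le_one_left (norm_nonneg _) (hβ b)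

theorem KAR (hWMO : WMO_stmt) : KAR_stmt := by
  intro ε hε
  obtain ⟨k, hk⟩ : ∃ k : ℕ, 1 / ε ≤ k := exists_nat_ge _
  have hk1 : 1 ≤ k := by
    by_contra h
    have h0 : k = 0 := by omega
    rw [h0, Nat.cast_zero] at hk
    have : 0 < 1 / ε := by positivity
    linarith
  have hkε : 1 ≤ ε * k := by
    rw [div_le_iff₀ hε] at hk
    linarith [mul_comm (k : ℝ) ε]
  have hkR : (0 : ℝ) < k := by exact_mod_cast hk1
  obtain ⟨N, hN⟩ := KAR_large ((k : ℝ) ^ (2 * k) + 2 * k) (ε / 2) (by positivity)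
  refine ⟨ε / (4 * k), N, by positivity, ?_⟩
  intro p _ hp χ X B β hχ hβ hXe hBe hor
  rcases hor with h | h
  · exact KAR_first hWMO ε k p hε hk1 hkε (hN p hp.le) χ X B β hχ hβ hXe hBe h
  · obtain ⟨α, hα, hle⟩ := KAR_swap p χ X B β hβ
    refine hle.trans ?_
    rw [mul_comm (X.card : ℝ)]
    exact KAR_first hWMO ε k p hε hk1 hkε (hN p hp.le) χ B X α hχ hα hBe hXe h

end Pool.Agent.OT
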