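import Pool.Agent.helper64.OT.SpecD

set_option autoImplicit false

namespace Pool.Agent.OT

open Finset Pool.Agent.SPI

theorem LSV_wt {p : ℕ} [NeZero p] (T : ℕ) (hT : 0 < T) (r : ℤ) (h1 : -(T : ℤ) < r) (h2 : r < T) :
    1 / (4 * (T : ℝ)) ≤ wt (p := p) (2 * T) (r : ZMod p) := by
  have hcard : T ≤ ((range (2 * T) ×ˢ range (2 * T)).filter
      fun z => (z.1 : ZMod p) - (z.2 : ZMod p) = (r : ZMod p)).card := by
    rcases le_or_gt 0 r with h0 | h0
    · obtain ⟨n, rfl⟩ := Int.eq_ofNat_of_zero_le h0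
      have hn : n < T := by exact_mod_cast h2
      calc T = (range T).card := (card_range T).symm
        _ ≤ _ := by
          apply Finset.card_le_card_of_injOn (fun s => (s + n, s))
          · intro s hs
            have hs' : s < T := by simpa using hs
            simp only [coe_filter, mem_product, mem_range, Set.mem_ofPred_eq]
            refine ⟨⟨by omega, by omega⟩, ?_⟩
            push_cast
            ring
          · intro s _ s' _ h
            simpa using (Prod.mk.inj h).2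
    · obtain ⟨n, hn⟩ := Int.eq_ofNat_of_zero_le (by omega : 0 ≤ -r)
      have hr : r = -(n : ℤ) := by omega
      subst hr
      have hn' : n < T := by omega
      calc T = (range T).card := (card_range T).symm
        _ ≤ _ := by
          apply Finset.card_le_card_of_injOn (fun s => (s, s + n))
          · intro s hs
            have hs' : s < T := by simpa using hs
            simp only [coe_filter, mem_product, mem_range, Set.mem_ofPred_eq]
            refine ⟨⟨by omega, by omega⟩, ?_⟩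
            push_cast
            ring
          · intro s _ s' _ h
            simpa using (Prod.mk.inj h).1
  unfold wt
  have hT' : (0 : ℝ) < T := by exact_mod_cast hT
  have hc : (T : ℝ) ≤ (((range (2 * T) ×ˢ range (2 * T)).filter
      fun z => (z.1 : ZMod p) - (z.2 : ZMod p) = (r : ZMod p)).card : ℝ) := by exact_mod_cast hcard
  calc 1 / (4 * (T : ℝ)) = (T : ℝ) / ((2 * T : ℕ) : ℝ) ^ 2 := by
        push_cast
        field_simp
        norm_num
    _ ≤ _ := by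
        apply div_le_div_of_nonneg_right hc
        positivity

theorem LSV_conj {p : ℕ} [NeZero p] (x : ZMod p) : ps (-x) = (starRingEnd ℂ) (ps x) := by
  unfold ps
  rw [AddChar.map_neg_eq_conj]

theorem LSV_ft {p : ℕ} [Fact p.Prime] (L N : ℕ) (J : Finset ℕ) (y : ZMod p)
    (h : ∀ x : ZMod p, (psi L x : ℂ) = ∑ r : ZMod p, (wt L r : ℂ) * ps (r * x)) :
    ((∑ j ∈ J, psi L (y - (j : ZMod p) * (N : ZMod p)) : ℝ) : ℂ) =
      ft univ (fun r => (wt L r : ℂ) * (starRingEnd ℂ) (WJ N J r)) y := by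
  unfold ft WJ
  push_cast
  have h0 : ∑ j ∈ J, (psi L (y - (j : ZMod p) * (N : ZMod p)) : ℂ) =
      ∑ j ∈ J, ∑ r : ZMod p, (wt L r : ℂ) * ps (r * (y - (j : ZMod p) * (N : ZMod p))) :=
    Finset.sum_congr rfl (fun j _ => h (y - (j : ZMod p) * (N : ZMod p)))
  rw [h0, Finset.sum_comm]
  refine Finset.sum_congr rfl ?_
  intro r _
  rw [map_sum, Finset.mul_sum, Finset.sum_mul]
  refine Finset.sum_congr rfl ?_
  intro j _
  have e : r * (y - (j : ZMod p) * (N : ZMod p)) = y * r + -(r * ((j : ZMod p) * (N : ZMod p))) := by ring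
  rw [e, ← LSV_conj]
  unfold ps
  rw [AddChar.map_add_eq_mul]
  ring

theorem LSV (hPSI : PSI_stmt) (hWTF : WTF_stmt) (hSPT : SPT_stmt) (hPLN : Pool.Agent.SPI.PLN_stmt) : LSV_stmt := by
  intro p hp N T J hN hT h8 h16 hJ
  have hp0 : 0 < p := hp.out.pos
  have hTN : T ≤ T * N := Nat.le_mul_of_pos_right T hN
  have h8' : 8 * (T * N) ≤ p := by rw [← mul_assoc]; exact h8
  have hL : 2 * T ≤ p := by omega
  have hL0 : 0 < 2 * T := by omega
  obtain ⟨hps, hsum⟩ := hPSI p (2 * T) hL0 hL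
  obtain ⟨hw1, hw2, -, -⟩ := hWTF p (2 * T) hL0 hL
  set G : ZMod p → ℝ := fun y => ∑ j ∈ J, psi (2 * T) (y - (j : ZMod p) * (N : ZMod p)) with hG
  have hG0 : ∀ y, 0 ≤ G y := fun y => Finset.sum_nonneg (fun j _ => (hps _).1)
  have hG200 : ∀ y, G y ≤ 200 := fun y => hSPT p N T J y hN hT h8 h16 hJ
  have hGsum : ∑ y, G y = J.card * ((p : ℝ) / (2 * T : ℕ)) := by
    simp only [hG]
    rw [Finset.sum_comm]
    have h0 : ∀ j ∈ J, ∑ y : ZMod p, psi (2 * T) (y - (j : ZMod p) * (N : ZMod p)) = (p : ℝ) / (2 * T : ℕ) := by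
      intro j _
      rw [← hsum]
      exact (Equiv.subRight ((j : ZMod p) * (N : ZMod p))).sum_comp (psi (2 * T))
    rw [Finset.sum_congr rfl h0, Finset.sum_const, nsmul_eq_mul]
  have hPl := hPLN p univ (fun r => (wt (2 * T) r : ℂ) * (starRingEnd ℂ) (WJ N J r))
  have hl : ∑ t : ZMod p, ‖ft univ (fun r => (wt (2 * T) r : ℂ) * (starRingEnd ℂ) (WJ N J r)) t‖ ^ 2 =
      ∑ t : ZMod p, G t ^ 2 := by
    refine Finset.sum_congr rfl ?_
    intro t _
    rw [← LSV_ft (2 * T) N J t hw1, Complex.norm_real, Real.norm_eq_abs, sq_abs]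
  have hr : ∀ r : ZMod p, ‖(wt (2 * T) r : ℂ) * (starRingEnd ℂ) (WJ N J r)‖ ^ 2 =
      wt (2 * T) r ^ 2 * ‖WJ N J r‖ ^ 2 := by
    intro r
    rw [norm_mul, Complex.norm_real, RCLike.norm_conj, mul_pow, Real.norm_eq_abs, sq_abs]
  rw [hl] at hPl
  have hPl' : ∑ t : ZMod p, G t ^ 2 = p * ∑ r : ZMod p, wt (2 * T) r ^ 2 * ‖WJ N J r‖ ^ 2 := by
    rw [hPl]
    congr 1
    exact Finset.sum_congr rfl (fun r _ => hr r)
  have hT' : (0 : ℝ) < T := by exact_mod_cast hT
  have hp' : (0 : ℝ) < p := by exact_mod_cast hp0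
  have hG2 : ∑ t : ZMod p, G t ^ 2 ≤ 200 * (J.card * ((p : ℝ) / (2 * T))) := by
    calc ∑ t : ZMod p, G t ^ 2 ≤ ∑ t : ZMod p, 200 * G t := by
          apply Finset.sum_le_sum
          intro t _
          nlinarith [hG0 t, hG200 t]
      _ = 200 * (J.card * ((p : ℝ) / (2 * T))) := by
          rw [← Finset.mul_sum, hGsum]
          push_cast
          ring
  -- injectivity
  have hinj : Set.InjOn (fun r : ℤ => (r : ZMod p)) (Ioo (-(T : ℤ)) (T : ℤ) : Finset ℤ) := by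
    intro r hr1 r' hr2 h
    simp only [coe_Ioo, Set.mem_Ioo] at hr1 hr2
    have h' : ((r - r' : ℤ) : ZMod p) = 0 := by
      push_cast
      rw [sub_eq_zero]
      exact h
    rw [ZMod.intCast_zmod_eq_zero_iff_dvd] at h'
    have hlt : |r - r'| < (p : ℤ) := by
      rw [abs_lt]
      constructor <;> omega
    have := Int.eq_zero_of_abs_lt_dvd h' hlt
    omega
  have step1 : ∑ r ∈ Ioo (-(T : ℤ)) (T : ℤ), ‖WJ N J (r : ZMod p)‖ ^ 2 ≤
      ∑ r ∈ Ioo (-(T : ℤ)) (T : ℤ), (16 * (T : ℝ) ^ 2) * (wt (2 * T) (r : ZMod p) ^ 2 * ‖WJ N J (r : ZMod p)‖ ^ 2) := by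
    apply Finset.sum_le_sum
    intro r hr1
    rw [mem_Ioo] at hr1
    have hw := LSV_wt (p := p) T hT r hr1.1 hr1.2
    have h1 : 1 ≤ (16 * (T : ℝ) ^ 2) * wt (2 * T) (r : ZMod p) ^ 2 := by
      have : 1 ≤ 4 * (T : ℝ) * wt (2 * T) (r : ZMod p) := by
        have h4 : 4 * (T : ℝ) * (1 / (4 * (T : ℝ))) = 1 := by field_simp
        calc (1 : ℝ) = 4 * (T : ℝ) * (1 / (4 * (T : ℝ))) := h4.symm
          _ ≤ _ := mul_le_mul_of_nonneg_left hw (by positivity)
      nlinarith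
    have h2 : 0 ≤ ‖WJ N J (r : ZMod p)‖ ^ 2 := by positivity
    calc ‖WJ N J (r : ZMod p)‖ ^ 2 = 1 * ‖WJ N J (r : ZMod p)‖ ^ 2 := (one_mul _).symm
      _ ≤ ((16 * (T : ℝ) ^ 2) * wt (2 * T) (r : ZMod p) ^ 2) * ‖WJ N J (r : ZMod p)‖ ^ 2 :=
          mul_le_mul_of_nonneg_right h1 h2
      _ = _ := by ring
  have step2 : ∑ r ∈ Ioo (-(T : ℤ)) (T : ℤ), (wt (2 * T) (r : ZMod p) ^ 2 * ‖WJ N J (r : ZMod p)‖ ^ 2) ≤
      ∑ r : ZMod p, wt (2 * T) r ^ 2 * ‖WJ N J r‖ ^ 2 := by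
    rw [← Finset.sum_image (s := Ioo (-(T : ℤ)) (T : ℤ)) (g := fun r : ℤ => (r : ZMod p))
      (f := fun r : ZMod p => wt (2 * T) r ^ 2 * ‖WJ N J r‖ ^ 2) hinj]
    apply Finset.sum_le_sum_of_subset_of_nonneg (Finset.subset_univ _)
    intro r _ _
    positivity
  rw [← Finset.mul_sum] at step1
  have step3 : ∑ r : ZMod p, wt (2 * T) r ^ 2 * ‖WJ N J r‖ ^ 2 ≤ 200 * (J.card / (2 * T)) := by
    have h1 : (p : ℝ) * ∑ r : ZMod p, wt (2 * T) r ^ 2 * ‖WJ N J r‖ ^ 2 ≤ p * (200 * (J.card / (2 * T))) := by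
      rw [← hPl']
      calc _ ≤ _ := hG2
        _ = _ := by ring
    exact le_of_mul_le_mul_left h1 hp'
  calc ∑ r ∈ Ioo (-(T : ℤ)) (T : ℤ), ‖WJ N J (r : ZMod p)‖ ^ 2 ≤ _ := step1
    _ ≤ 16 * (T : ℝ) ^ 2 * (200 * (J.card / (2 * T))) :=
        mul_le_mul_of_nonneg_left (step2.trans step3) (by positivity)
    _ = 1600 * T * J.card := by
        field_simp
        ring

end Pool.Agent.OT
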