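import Pool.Agent.helper64.OT.SpecW

/-!
# Row W1A: the mixed Weil bound
-/

set_option autoImplicit false

namespace Pool.Agent.OT

open Finset

open Polynomial Pool.Agent.helper82.Weil Pool.Agent.helper82.KL in
theorem W1A_zz (F : Type) [Field F] [Fintype F] (χ : MulChar F ℂ) (hχ : χ ≠ 1) (r : F) (hr : r ≠ 0) :
    ‖∑ x : F, χ (x + r) * (starRingEnd ℂ) (χ x)‖ ≤ 2 * Real.sqrt (Fintype.card F) := by
  classical
  have h := ZZ_bound χ hχ (k := 1) (fun _ => r) (fun _ => (0 : F)) (by
    refine ⟨Sum.inl 0, ?_⟩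
    rintro (i | i) hi
    · exact absurd (by rw [Subsingleton.elim i 0]) hi
    · exact fun h => hr h.symm)
  have e : ZZ χ (k := 1) (fun _ => r) (fun _ => (0 : F)) = ∑ x : F, χ (x + r) * (starRingEnd ℂ) (χ x) := by
    unfold ZZ
    refine Finset.sum_congr rfl fun x _ => ?_
    rw [Fin.prod_univ_one, Fin.prod_univ_one, zero_add, add_comm r x]
  rw [e] at h
  refine h.trans (le_of_eq ?_)
  push_cast
  ring

open Polynomial Pool.Agent.helper82.Weil Pool.Agent.helper82.KL in
theorem W1A (hWRB : WRB_stmt) (hWMC : WMC_stmt) (hWM1 : WM1_stmt) (hWMH : WMH_stmt) (hWMS : WMS_stmt)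
    (hWMT : WMT_stmt) (hWMP : WMP_stmt) (hWFD : WFD_stmt) : W1A_stmt := by
  intro p _ χ hχ r u hr
  have hp : p.Prime := Fact.out
  have hp0 : (0 : ℝ) < p := by exact_mod_cast hp.pos
  have hp1 : (1 : ℝ) ≤ p := by exact_mod_cast hp.one_lt.le
  have hsq : (0 : ℝ) < Real.sqrt p := Real.sqrt_pos.2 hp0
  have hps0 : ps (0 : ZMod p) = 1 := by
    unfold ps
    rw [AddChar.map_zero_eq_one]
  by_cases hu : u = 0
  · have h := W1A_zz (ZMod p) χ hχ r hr
    rw [ZMod.card] at h
    have e : ∑ t : ZMod p, ps (u * t) * (starRingEnd ℂ) (χ t) * χ (t + r) =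
        ∑ x : ZMod p, χ (x + r) * (starRingEnd ℂ) (χ x) := by
      refine Finset.sum_congr rfl fun t _ => ?_
      rw [hu, zero_mul, hps0]
      ring
    rw [e]
    linarith
  · -- the family
    set L : {j : ZMod p // j ≠ 0} → ℂ[X] := fun j =>
      ∑ n ∈ range 3, C (cA (LM χ r ((j : ZMod p) * u)) n) * X ^ n with hL
    have hju : ∀ j : {j : ZMod p // j ≠ 0}, (j : ZMod p) * u ≠ 0 := fun j => mul_ne_zero j.2 hu
    have hco : ∀ (j : {j : ZMod p // j ≠ 0}) (n : ℕ), (L j).coeff n = cA (LM χ r ((j : ZMod p) * u)) n := by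
      intro j n
      rw [hL]
      simp only [finsetSum_coeff, coeff_C_mul, coeff_X_pow]
      by_cases hn : n < 3
      · rw [Finset.sum_eq_single n]
        · rw [if_pos rfl, mul_one]
        · intro m _ hmn
          rw [if_neg (fun h => hmn h.symm), mul_zero]
        · intro h
          exact absurd (Finset.mem_range.2 hn) h
      · rw [hWMH p χ r _ n (hju j) (by omega)]
        refine Finset.sum_eq_zero fun m hm => ?_
        rw [if_neg (fun h => hn (by rw [h]; exact Finset.mem_range.1 hm)), mul_zero]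
    obtain ⟨N, hN0, hNf⟩ := hWFD p (X ^ p - X - C (u * r))
    have key := hWRB {j : ZMod p // j ≠ 0} L (fun j => SA (LM χ r ((j : ZMod p) * u))) (Real.sqrt p) (4 * p) N
      hsq hN0 (fun j => by rw [hco, cA_zero (hWMC p χ r _)])
      (fun j n => by
        rw [hco, newton (hWMC p χ r _)]
        refine Finset.sum_congr rfl fun m _ => ?_
        rw [hco])
      (by
        intro s hs
        obtain ⟨K, iK, iF, iA, hfr, hspl⟩ := hNf s hs
        obtain ⟨θ, hθ⟩ : ∃ θ : K, θ ^ p - θ = algebraMap (ZMod p) K (u * r) := by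
          have hmap : (X ^ p - X - C (u * r) : (ZMod p)[X]).map (algebraMap (ZMod p) K) =
              X ^ p - X - C (algebraMap (ZMod p) K (u * r)) := by
            simp
          have hdeg : ((X ^ p - X - C (u * r) : (ZMod p)[X]).map (algebraMap (ZMod p) K)).degree ≠ 0 := by
            rw [hmap]
            have h1 : (X ^ p - X - C (algebraMap (ZMod p) K (u * r)) : K[X]) =
                X ^ p - (X + C (algebraMap (ZMod p) K (u * r))) := by ring
            rw [h1, degree_sub_eq_left_of_degree_lt]
            · rw [degree_X_pow]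
              exact_mod_cast hp.ne_zero
            · rw [degree_X_pow]
              rw [degree_X_add_C]
              exact_mod_cast hp.one_lt
          obtain ⟨θ, hθ⟩ := hspl.exists_eval_eq_zero hdeg
          refine ⟨θ, ?_⟩
          rw [hmap] at hθ
          simp only [eval_sub, eval_pow, eval_X, eval_C] at hθ
          exact sub_eq_zero.1 hθ
        have hc : algebraMap (ZMod p) K (u * r) ≠ 0 := by
          rw [Ne, FaithfulSMul.algebraMap_eq_zero_iff]
          exact mul_ne_zero hu hr
        have hcard : Fintype.card K = p ^ (N * s) := by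
          rw [← hfr, ← Nat.card_eq_fintype_card, Module.natCard_eq_pow_finrank (K := ZMod p) (V := K),
            Nat.card_eq_fintype_card, ZMod.card]
        have hsqK : Real.sqrt (Fintype.card K) = Real.sqrt p ^ (N * s) := by
          rw [hcard]
          push_cast
          rw [Real.sqrt_eq_rpow, Real.sqrt_eq_rpow, ← Real.rpow_natCast, ← Real.rpow_natCast,
            ← Real.rpow_mul hp0.le, ← Real.rpow_mul hp0.le, mul_comm]
        have hall := hWMT p K χ r u (N * s) hu hfr
        have hbd := hWMP p K χ (algebraMap (ZMod p) K (u * r)) θ hχ hc hθ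
        rw [← hall] at hbd
        have hz := hWMS p K χ r 0 (N * s) hfr
        have hzb : ‖SA (LM χ r 0) (N * s)‖ ≤ 2 * Real.sqrt (Fintype.card K) := by
          rw [hz]
          have h2 := W1A_zz K (normChar K χ) (normChar_ne_one χ hχ) (algebraMap (ZMod p) K r) (by
            rw [Ne, FaithfulSMul.algebraMap_eq_zero_iff]
            exact hr)
          have e : ∑ x : K, normChar K χ (x + algebraMap (ZMod p) K r) *
              (starRingEnd ℂ) (normChar K χ x) * ps (0 * Algebra.trace (ZMod p) K x) =
              ∑ x : K, normChar K χ (x + algebraMap (ZMod p) K r) * (starRingEnd ℂ) (normChar K χ x) := by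
            refine Finset.sum_congr rfl fun x _ => ?_
            rw [zero_mul, hps0, mul_one]
          rw [e]
          exact h2
        have hsplit : ∑ j : ZMod p, SA (LM χ r (j * u)) (N * s) =
            SA (LM χ r 0) (N * s) + ∑ j : {j : ZMod p // j ≠ 0}, SA (LM χ r ((j : ZMod p) * u)) (N * s) := by
          rw [← Finset.add_sum_erase Finset.univ _ (Finset.mem_univ (0 : ZMod p)), zero_mul]
          congr 1
          exact Finset.sum_subtype (Finset.univ.erase (0 : ZMod p)) (fun x => by simp)
            (fun j : ZMod p => SA (LM χ r (j * u)) (N * s))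
        have e2 : ∑ j : {j : ZMod p // j ≠ 0}, SA (LM χ r ((j : ZMod p) * u)) (N * s) =
            ∑ j : ZMod p, SA (LM χ r (j * u)) (N * s) - SA (LM χ r 0) (N * s) := by
          rw [hsplit]
          ring
        rw [e2, ← hsqK]
        have hsK : 0 ≤ Real.sqrt (Fintype.card K) := Real.sqrt_nonneg _
        calc ‖∑ j : ZMod p, SA (LM χ r (j * u)) (N * s) - SA (LM χ r 0) (N * s)‖
            ≤ ‖∑ j : ZMod p, SA (LM χ r (j * u)) (N * s)‖ + ‖SA (LM χ r 0) (N * s)‖ := norm_sub_le _ _
          _ ≤ 2 * p * Real.sqrt (Fintype.card K) + 2 * Real.sqrt (Fintype.card K) := add_le_add hbd hzb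
          _ ≤ 4 * p * Real.sqrt (Fintype.card K) := by nlinarith) ⟨1, one_ne_zero⟩
    rw [hco] at key
    have hnd : ((L ⟨1, one_ne_zero⟩).natDegree : ℝ) ≤ 2 := by
      have : (L ⟨1, one_ne_zero⟩).natDegree ≤ 2 := by
        refine natDegree_le_iff_coeff_eq_zero.2 ?_
        intro n hn
        rw [hco, hWMH p χ r _ n (hju _) (by omega)]
      exact_mod_cast this
    have e1 : ((⟨1, one_ne_zero⟩ : {j : ZMod p // j ≠ 0}) : ZMod p) * u = u := one_mul u
    rw [e1, hWM1 p χ r u] at key
    refine key.trans ?_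
    nlinarith

end Pool.Agent.OT
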